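import Mathlib

/-!
The box distance between metric measure spaces.
-/

set_option autoImplicit false
set_option linter.deprecated false

open MeasureTheory ProbabilityTheory Set Filter Topology TopologicalSpace

namespace Pool.Agent.L0h96.Box

/-- the interval `[0, 1)`, with Lebesgue measure -/
abbrev J : Type := Set.Ico (0 : ℝ) 1

/-- Lebesgue measure on `[0, 1)` -/
noncomputable instance : MeasureSpace J := Measure.Subtype.measureSpace

/-- an mm-space: a complete separable metric space with a Borel probability measure -/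
structure MMSpace where
  /-- the underlying set -/
  carrier : Type
  [metric : MetricSpace carrier]
  [complete : CompleteSpace carrier]
  [separable : SeparableSpace carrier]
  [meas : MeasurableSpace carrier]
  [borel : BorelSpace carrier]
  /-- the measure -/
  μ : Measure carrier
  [prob : IsProbabilityMeasure μ]

attribute [instance] MMSpace.metric MMSpace.complete MMSpace.separable MMSpace.meas
  MMSpace.borel MMSpace.prob

instance (X : MMSpace) : SecondCountableTopology X.carrier :=
  UniformSpace.secondCountable_of_separable _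

instance (X : MMSpace) : Nonempty X.carrier := nonempty_of_isProbabilityMeasure X.μ

/-- two mm-spaces are identified when some isometry between the supports of their measures carries one
measure to the other -/
def MMIso (X Y : MMSpace) : Prop :=
  ∃ f : X.μ.support ≃ᵢ Y.μ.support,
    (X.μ.comap (Subtype.val : X.μ.support → X.carrier)).map f =
      Y.μ.comap (Subtype.val : Y.μ.support → Y.carrier)

lemma MMIso.refl (X : MMSpace) : MMIso X X := ⟨IsometryEquiv.refl _, Measure.map_id⟩

lemma MMIso.symm {X Y : MMSpace} (h : MMIso X Y) : MMIso Y X := by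
  obtain ⟨f, hf⟩ := h
  refine ⟨f.symm, ?_⟩
  rw [← hf, Measure.map_map f.symm.continuous.measurable f.continuous.measurable]
  have : (⇑f.symm ∘ ⇑f) = id := by ext x; simp
  rw [this, Measure.map_id]

lemma MMIso.trans {X Y Z : MMSpace} (h : MMIso X Y) (h' : MMIso Y Z) : MMIso X Z := by
  obtain ⟨f, hf⟩ := h
  obtain ⟨f', hf'⟩ := h'
  refine ⟨f.trans f', ?_⟩
  rw [← hf', ← hf, Measure.map_map f'.continuous.measurable f.continuous.measurable]
  rfl

/-- a parameter of an mm-space -/
def IsParam (X : MMSpace) (φ : J → X.carrier) : Prop :=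
  Measurable φ ∧ Measure.map φ (volume : Measure J) = X.μ

/-- the admissible `ε` in the definition of the box distance -/
def boxSet (X Y : MMSpace) : Set ℝ :=
  {ε | 0 ≤ ε ∧ ∃ (φ : J → X.carrier) (ψ : J → Y.carrier), IsParam X φ ∧ IsParam Y ψ ∧
    ∃ I₀ : Set J, MeasurableSet I₀ ∧ 1 - ε ≤ (volume I₀).toReal ∧
      ∀ s ∈ I₀, ∀ t ∈ I₀, |dist (φ s) (φ t) - dist (ψ s) (ψ t)| ≤ ε}

/-- the box distance of two mm-spaces -/
noncomputable def boxDist (X Y : MMSpace) : ℝ := sInf (boxSet X Y)

lemma volume_J : (volume : Measure J) univ = 1 := by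
  rw [Measure.Subtype.volume_univ (nullMeasurableSet_Ico)]
  simp

instance : IsProbabilityMeasure (volume : Measure J) := ⟨volume_J⟩

lemma exists_map_J {Y : Type*} [MeasurableSpace Y] [StandardBorelSpace Y] (μ : Measure Y)
    [IsProbabilityMeasure μ] : ∃ f : J → Y, Measurable f ∧ Measure.map f volume = μ := by
  have : Nonempty Y := nonempty_of_isProbabilityMeasure μ
  obtain ⟨f, hf, hfμ⟩ := Measure.exists_measurable_map_eq μ
  set j : J → unitInterval := fun t => ⟨t, t.2.1, t.2.2.le⟩ with hj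
  have hjm : Measurable j := Measurable.subtype_mk measurable_subtype_coe
  have hjv : Measure.map j volume = (volume : Measure unitInterval) := by
    ext s hs
    rw [Measure.map_apply hjm hs]
    have e1 : (volume : Measure J) (j ⁻¹' s) = (volume : Measure ℝ) (Subtype.val '' (j ⁻¹' s)) := by
      exact (MeasurableEmbedding.subtype_coe measurableSet_Ico).comap_apply _ _
    have e2 : (volume : Measure unitInterval) s = (volume : Measure ℝ) (Subtype.val '' s) := by
      exact (MeasurableEmbedding.subtype_coe measurableSet_Icc).comap_apply _ _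
    rw [e1, e2]
    apply le_antisymm
    · apply measure_mono
      rintro _ ⟨t, ht, rfl⟩
      exact ⟨j t, ht, rfl⟩
    · calc (volume : Measure ℝ) (Subtype.val '' s)
          ≤ (volume : Measure ℝ) (Subtype.val '' (j ⁻¹' s) ∪ {1}) := by
            apply measure_mono
            rintro _ ⟨t, ht, rfl⟩
            by_cases h1 : (t : ℝ) = 1
            · right; exact h1
            · left
              exact ⟨⟨t, t.2.1, lt_of_le_of_ne t.2.2 h1⟩, ht, rfl⟩
        _ ≤ _ := (measure_union_le _ _).trans (by simp)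
  refine ⟨f ∘ j, hf.comp hjm, ?_⟩
  rw [← Measure.map_map hf hjm, hjv, hfμ]

lemma exists_param (X : MMSpace) : ∃ φ : J → X.carrier, IsParam X φ := exists_map_J X.μ

lemma one_mem (X Y : MMSpace) : (1 : ℝ) ∈ boxSet X Y := by
  obtain ⟨φ, hφ⟩ := exists_param X
  obtain ⟨ψ, hψ⟩ := exists_param Y
  refine ⟨zero_le_one, φ, ψ, hφ, hψ, ∅, MeasurableSet.empty, by simp, by simp⟩

lemma bddBelow (X Y : MMSpace) : BddBelow (boxSet X Y) := ⟨0, fun _ h => h.1⟩

lemma boxDist_nonneg (X Y : MMSpace) : 0 ≤ boxDist X Y :=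
  le_csInf ⟨1, one_mem X Y⟩ fun _ h => h.1

lemma boxSet_symm (X Y : MMSpace) : boxSet X Y ⊆ boxSet Y X := by
  rintro ε ⟨h0, φ, ψ, hφ, hψ, I₀, hI, hI1, hI2⟩
  exact ⟨h0, ψ, φ, hψ, hφ, I₀, hI, hI1, fun s hs t ht => by rw [abs_sub_comm]; exact hI2 s hs t ht⟩

lemma boxDist_symm (X Y : MMSpace) : boxDist X Y = boxDist Y X := by
  unfold boxDist
  rw [Subset.antisymm (boxSet_symm X Y) (boxSet_symm Y X)]

section glue

variable {A B C : Type*} [MeasurableSpace A] [MeasurableSpace B] [MeasurableSpace C]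

lemma map_fst_compProd (μ : Measure B) [IsProbabilityMeasure μ] (κ : Kernel B A) (η : Kernel B C)
    [IsMarkovKernel κ] [IsMarkovKernel η] :
    Measure.map (fun p : B × (A × C) => (p.1, p.2.1)) (μ ⊗ₘ (κ ×ₖ η)) = μ ⊗ₘ κ := by
  ext s hs
  have hm : Measurable fun p : B × (A × C) => (p.1, p.2.1) := by fun_prop
  rw [Measure.map_apply hm hs, Measure.compProd_apply (hm hs), Measure.compProd_apply hs]
  apply lintegral_congr
  intro b
  rw [Kernel.prod_apply]
  have e : Prod.mk b ⁻¹' ((fun p : B × (A × C) => (p.1, p.2.1)) ⁻¹' s) =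
      (Prod.mk b ⁻¹' s) ×ˢ (univ : Set C) := by
    ext ⟨a, c⟩; simp
  rw [e, Measure.prod_prod, measure_univ, mul_one]

lemma map_snd_compProd (μ : Measure B) [IsProbabilityMeasure μ] (κ : Kernel B A) (η : Kernel B C)
    [IsMarkovKernel κ] [IsMarkovKernel η] :
    Measure.map (fun p : B × (A × C) => (p.1, p.2.2)) (μ ⊗ₘ (κ ×ₖ η)) = μ ⊗ₘ η := by
  ext s hs
  have hm : Measurable fun p : B × (A × C) => (p.1, p.2.2) := by fun_prop
  rw [Measure.map_apply hm hs, Measure.compProd_apply (hm hs), Measure.compProd_apply hs]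
  apply lintegral_congr
  intro b
  rw [Kernel.prod_apply]
  have e : Prod.mk b ⁻¹' ((fun p : B × (A × C) => (p.1, p.2.2)) ⁻¹' s) =
      (univ : Set A) ×ˢ (Prod.mk b ⁻¹' s) := by
    ext ⟨a, c⟩; simp
  rw [e, Measure.prod_prod, measure_univ, one_mul]

lemma glue [StandardBorelSpace A] [StandardBorelSpace B] [StandardBorelSpace C] [Nonempty A]
    [Nonempty C] (φ : J → A) (ψ ψ' : J → B) (χ : J → C) (hφ : Measurable φ) (hψ : Measurable ψ)
    (hψ' : Measurable ψ') (hχ : Measurable χ)
    (h : Measure.map ψ volume = Measure.map ψ' volume) :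
    ∃ θ : J → B × (A × C), Measurable θ ∧
      Measure.map (fun s => ((θ s).1, (θ s).2.1)) volume = Measure.map (fun s => (ψ s, φ s)) volume ∧
      Measure.map (fun s => ((θ s).1, (θ s).2.2)) volume =
        Measure.map (fun s => (ψ' s, χ s)) volume := by
  set μ := Measure.map ψ (volume : Measure J) with hμ
  have : IsProbabilityMeasure μ := Measure.isProbabilityMeasure_map hψ.aemeasurable
  set ρ₁ := Measure.map (fun s => (ψ s, φ s)) (volume : Measure J) with hρ₁
  set ρ₂ := Measure.map (fun s => (ψ' s, χ s)) (volume : Measure J) with hρ₂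
  have p₁ : IsProbabilityMeasure ρ₁ := Measure.isProbabilityMeasure_map (hψ.prodMk hφ).aemeasurable
  have p₂ : IsProbabilityMeasure ρ₂ := Measure.isProbabilityMeasure_map (hψ'.prodMk hχ).aemeasurable
  have f₁ : ρ₁.fst = μ := by
    rw [Measure.fst, hρ₁, Measure.map_map measurable_fst (hψ.prodMk hφ)]
    rfl
  have f₂ : ρ₂.fst = μ := by
    rw [Measure.fst, hρ₂, Measure.map_map measurable_fst (hψ'.prodMk hχ), h]
    rfl
  have d₁ : μ ⊗ₘ ρ₁.condKernel = ρ₁ := by
    rw [← f₁]; exact ρ₁.disintegrate ρ₁.condKernel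
  have d₂ : μ ⊗ₘ ρ₂.condKernel = ρ₂ := by
    rw [← f₂]; exact ρ₂.disintegrate ρ₂.condKernel
  obtain ⟨θ, hθ, hθ2⟩ := exists_map_J (μ ⊗ₘ (ρ₁.condKernel ×ₖ ρ₂.condKernel))
  refine ⟨θ, hθ, ?_, ?_⟩
  · have := map_fst_compProd μ ρ₁.condKernel ρ₂.condKernel
    rw [d₁, ← hθ2, Measure.map_map (by fun_prop) hθ] at this
    exact this
  · have := map_snd_compProd μ ρ₁.condKernel ρ₂.condKernel
    rw [d₂, ← hθ2, Measure.map_map (by fun_prop) hθ] at this
    exact this

end glue

lemma boxSet_add {X Y Z : MMSpace} {ε ε' : ℝ} (h : ε ∈ boxSet X Y) (h' : ε' ∈ boxSet Y Z) :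
    ε + ε' ∈ boxSet X Z := by
  obtain ⟨h0, φ, ψ, hφ, hψ, I₀, hI, hI1, hI2⟩ := h
  obtain ⟨h0', ψ', χ, hψ', hχ, I₁, hI', hI1', hI2'⟩ := h'
  obtain ⟨θ, hθ, hθ1, hθ2⟩ := glue φ ψ ψ' χ hφ.1 hψ.1 hψ'.1 hχ.1 (hψ.2.trans hψ'.2.symm)
  have m1 : Measurable fun s => ((θ s).1, (θ s).2.1) := by fun_prop
  have m2 : Measurable fun s => ((θ s).1, (θ s).2.2) := by fun_prop
  have n1 : Measurable fun s => (ψ s, φ s) := hψ.1.prodMk hφ.1
  have n2 : Measurable fun s => (ψ' s, χ s) := hψ'.1.prodMk hχ.1
  -- the closures of the graphs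
  set S₁ : Set (Y.carrier × X.carrier) := closure ((fun s => (ψ s, φ s)) '' I₀) with hS₁
  set S₂ : Set (Y.carrier × Z.carrier) := closure ((fun s => (ψ' s, χ s)) '' I₁) with hS₂
  have s1 : ∀ p ∈ S₁, ∀ q ∈ S₁, |dist p.2 q.2 - dist p.1 q.1| ≤ ε := by
    have hcl : IsClosed {r : (Y.carrier × X.carrier) × (Y.carrier × X.carrier) |
        |dist r.1.2 r.2.2 - dist r.1.1 r.2.1| ≤ ε} :=
      isClosed_le (by fun_prop) continuous_const
    have hsub : ((fun s => (ψ s, φ s)) '' I₀) ×ˢ ((fun s => (ψ s, φ s)) '' I₀) ⊆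
        {r : (Y.carrier × X.carrier) × (Y.carrier × X.carrier) |
          |dist r.1.2 r.2.2 - dist r.1.1 r.2.1| ≤ ε} := by
      rintro ⟨_, _⟩ ⟨⟨s, hs, rfl⟩, ⟨t, ht, rfl⟩⟩
      exact hI2 s hs t ht
    intro p hp q hq
    have hpq : (p, q) ∈ closure (((fun s => (ψ s, φ s)) '' I₀) ×ˢ ((fun s => (ψ s, φ s)) '' I₀)) := by
      rw [closure_prod_eq]; exact ⟨hp, hq⟩
    exact (closure_minimal hsub hcl) hpq
  have s2 : ∀ p ∈ S₂, ∀ q ∈ S₂, |dist p.1 q.1 - dist p.2 q.2| ≤ ε' := by
    have hcl : IsClosed {r : (Y.carrier × Z.carrier) × (Y.carrier × Z.carrier) |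
        |dist r.1.1 r.2.1 - dist r.1.2 r.2.2| ≤ ε'} :=
      isClosed_le (by fun_prop) continuous_const
    have hsub : ((fun s => (ψ' s, χ s)) '' I₁) ×ˢ ((fun s => (ψ' s, χ s)) '' I₁) ⊆
        {r : (Y.carrier × Z.carrier) × (Y.carrier × Z.carrier) |
          |dist r.1.1 r.2.1 - dist r.1.2 r.2.2| ≤ ε'} := by
      rintro ⟨_, _⟩ ⟨⟨s, hs, rfl⟩, ⟨t, ht, rfl⟩⟩
      exact hI2' s hs t ht
    intro p hp q hq
    have hpq : (p, q) ∈ closure (((fun s => (ψ' s, χ s)) '' I₁) ×ˢ
        ((fun s => (ψ' s, χ s)) '' I₁)) := by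
      rw [closure_prod_eq]; exact ⟨hp, hq⟩
    exact (closure_minimal hsub hcl) hpq
  have c1 : MeasurableSet S₁ := isClosed_closure.measurableSet
  have c2 : MeasurableSet S₂ := isClosed_closure.measurableSet
  set K₁ : Set J := (fun s => ((θ s).1, (θ s).2.1)) ⁻¹' S₁ with hK₁
  set K₂ : Set J := (fun s => ((θ s).1, (θ s).2.2)) ⁻¹' S₂ with hK₂
  have k1 : MeasurableSet K₁ := m1 c1
  have k2 : MeasurableSet K₂ := m2 c2
  have v1 : 1 - ε ≤ (volume K₁).toReal := by
    refine hI1.trans ?_
    apply ENNReal.toReal_mono (measure_ne_top _ _)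
    calc volume I₀ ≤ volume ((fun s => (ψ s, φ s)) ⁻¹' S₁) :=
          measure_mono fun s hs => subset_closure ⟨s, hs, rfl⟩
      _ = Measure.map (fun s => (ψ s, φ s)) volume S₁ := (Measure.map_apply n1 c1).symm
      _ = volume K₁ := by rw [← hθ1, Measure.map_apply m1 c1]
  have v2 : 1 - ε' ≤ (volume K₂).toReal := by
    refine hI1'.trans ?_
    apply ENNReal.toReal_mono (measure_ne_top _ _)
    calc volume I₁ ≤ volume ((fun s => (ψ' s, χ s)) ⁻¹' S₂) :=
          measure_mono fun s hs => subset_closure ⟨s, hs, rfl⟩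
      _ = Measure.map (fun s => (ψ' s, χ s)) volume S₂ := (Measure.map_apply n2 c2).symm
      _ = volume K₂ := by rw [← hθ2, Measure.map_apply m2 c2]
  refine ⟨add_nonneg h0 h0', fun s => (θ s).2.1, fun s => (θ s).2.2, ⟨by fun_prop, ?_⟩,
    ⟨by fun_prop, ?_⟩, K₁ ∩ K₂, k1.inter k2, ?_, ?_⟩
  · have e := congrArg (Measure.map Prod.snd) hθ1
    rw [Measure.map_map measurable_snd m1, Measure.map_map measurable_snd n1] at e
    exact e.trans hφ.2
  · have e := congrArg (Measure.map Prod.snd) hθ2
    rw [Measure.map_map measurable_snd m2, Measure.map_map measurable_snd n2] at e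
    exact e.trans hχ.2
  · have hu : (volume (K₁ ∪ K₂)).toReal ≤ 1 := by
      have : volume (K₁ ∪ K₂) ≤ 1 := prob_le_one
      calc (volume (K₁ ∪ K₂)).toReal ≤ (1 : ENNReal).toReal :=
            ENNReal.toReal_mono ENNReal.one_ne_top this
        _ = 1 := by simp
    have := measureReal_union_add_inter (μ := (volume : Measure J)) (s := K₁) k2
      (measure_ne_top _ _) (measure_ne_top _ _)
    simp only [Measure.real] at this
    linarith
  · intro s hs t ht
    have e1 := s1 _ hs.1 _ ht.1
    have e2 := s2 _ hs.2 _ ht.2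
    simp only at e1 e2
    calc |dist (θ s).2.1 (θ t).2.1 - dist (θ s).2.2 (θ t).2.2|
        = |(dist (θ s).2.1 (θ t).2.1 - dist (θ s).1 (θ t).1) +
          (dist (θ s).1 (θ t).1 - dist (θ s).2.2 (θ t).2.2)| := by ring_nf
      _ ≤ _ := (abs_add_le _ _).trans (add_le_add e1 e2)

lemma boxDist_triangle (X Y Z : MMSpace) : boxDist X Z ≤ boxDist X Y + boxDist Y Z := by
  apply le_of_forall_pos_le_add
  intro δ hδ
  obtain ⟨ε, hε, hε2⟩ := exists_lt_of_csInf_lt ⟨1, one_mem X Y⟩
    (show sInf (boxSet X Y) < boxDist X Y + δ / 2 by unfold boxDist; linarith)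
  obtain ⟨ε', hε', hε2'⟩ := exists_lt_of_csInf_lt ⟨1, one_mem Y Z⟩
    (show sInf (boxSet Y Z) < boxDist Y Z + δ / 2 by unfold boxDist; linarith)
  have := csInf_le (bddBelow X Z) (boxSet_add hε hε')
  unfold boxDist at *
  linarith

lemma boxDist_of_iso {X Y : MMSpace} (h : MMIso X Y) : boxDist X Y = 0 := by
  apply le_antisymm _ (boxDist_nonneg X Y)
  apply csInf_le (bddBelow X Y)
  obtain ⟨f, hf⟩ := h
  obtain ⟨φ, hφ⟩ := exists_param X
  have hsX : MeasurableSet X.μ.support := Measure.isClosed_support.measurableSet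
  have hsY : MeasurableSet Y.μ.support := Measure.isClosed_support.measurableSet
  classical
  obtain ⟨y₀⟩ : Nonempty Y.carrier := inferInstance
  set F : X.carrier → Y.carrier := fun x => if hx : x ∈ X.μ.support then (f ⟨x, hx⟩ : Y.carrier)
    else y₀ with hF
  have hFm : Measurable F := by
    apply Measurable.dite (s := X.μ.support) (f := fun x => (f x : Y.carrier)) (g := fun _ => y₀)
      _ measurable_const hsX
    exact measurable_subtype_coe.comp f.continuous.measurable
  have hFμ : Measure.map F X.μ = Y.μ := by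
    ext s hs
    rw [Measure.map_apply hFm hs]
    have e1 : X.μ (F ⁻¹' s) = X.μ (F ⁻¹' s ∩ X.μ.support) :=
      (measure_inter_conull Measure.measure_compl_support).symm
    have e2 : Y.μ s = Y.μ (s ∩ Y.μ.support) :=
      (measure_inter_conull Measure.measure_compl_support).symm
    rw [e1, e2]
    have e3 : F ⁻¹' s ∩ X.μ.support = Subtype.val '' (f ⁻¹' (Subtype.val ⁻¹' s)) := by
      ext x
      constructor
      · rintro ⟨h1, h2⟩
        refine ⟨⟨x, h2⟩, ?_, rfl⟩
        rw [mem_preimage, hF] at h1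
        simp only [dif_pos h2] at h1
        exact h1
      · rintro ⟨⟨x, h2⟩, h1, rfl⟩
        refine ⟨?_, h2⟩
        rw [mem_preimage, hF]
        simp only [dif_pos h2]
        exact h1
    have e4 : s ∩ Y.μ.support = Subtype.val '' (Subtype.val ⁻¹' s : Set Y.μ.support) := by
      rw [Subtype.image_preimage_coe, inter_comm]
    rw [e3, e4, ← (MeasurableEmbedding.subtype_coe hsX).comap_apply,
      ← (MeasurableEmbedding.subtype_coe hsY).comap_apply, ← hf,
      Measure.map_apply f.continuous.measurable (measurable_subtype_coe hs)]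
  have hI : MeasurableSet (φ ⁻¹' X.μ.support) := hφ.1 hsX
  refine ⟨le_rfl, φ, F ∘ φ, hφ, ⟨hFm.comp hφ.1, ?_⟩, φ ⁻¹' X.μ.support, hI, ?_, ?_⟩
  · rw [← Measure.map_map hFm hφ.1, hφ.2, hFμ]
  · have : volume (φ ⁻¹' X.μ.support) = 1 := by
      rw [← Measure.map_apply hφ.1 hsX, hφ.2]
      have h1 := measure_inter_conull (μ := X.μ) (s := univ) (t := X.μ.support)
        Measure.measure_compl_support
      rw [univ_inter, measure_univ] at h1
      exact h1
    rw [this]; simp
  · intro s hs t ht
    have e : ∀ s, (hs : φ s ∈ X.μ.support) → F (φ s) = f ⟨φ s, hs⟩ := fun s hs => by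
      rw [hF]; simp only [dif_pos hs]
    show |dist (φ s) (φ t) - dist (F (φ s)) (F (φ t))| ≤ 0
    rw [e s hs, e t ht]
    have := f.dist_eq ⟨φ s, hs⟩ ⟨φ t, ht⟩
    rw [Subtype.dist_eq, Subtype.dist_eq] at this
    rw [this, sub_self, abs_zero]

/-- the identification of mm-spaces -/
instance mmSetoid : Setoid MMSpace := ⟨MMIso, MMIso.refl, MMIso.symm, MMIso.trans⟩

/-- the set `𝒳` of isomorphism classes of mm-spaces -/
def MM : Type 1 := Quotient mmSetoid

/-- the box distance on `𝒳` -/
noncomputable def box : MM → MM → ℝ :=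
  Quotient.lift₂ boxDist (by
    intro X Y X' Y' h h'
    have h1 := boxDist_of_iso h
    have h2 := boxDist_of_iso h'
    have h3 := boxDist_of_iso (MMIso.symm h)
    have h4 := boxDist_of_iso (MMIso.symm h')
    apply le_antisymm
    · have a := boxDist_triangle X X' Y
      have b := boxDist_triangle X' Y' Y
      linarith
    · have a := boxDist_triangle X' X Y'
      have b := boxDist_triangle X Y Y'
      linarith)

/-- the box distance is a pseudometric (this is all that is needed; it is known to be a metric) -/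
noncomputable instance : PseudoMetricSpace MM where
  dist := box
  dist_self x := by
    induction x using Quotient.inductionOn with
    | h X => exact boxDist_of_iso (MMIso.refl X)
  dist_comm x y := by
    induction x using Quotient.inductionOn with
    | h X => induction y using Quotient.inductionOn with
      | h Y => exact boxDist_symm X Y
  dist_triangle x y z := by
    induction x using Quotient.inductionOn with
    | h X => induction y using Quotient.inductionOn with
      | h Y => induction z using Quotient.inductionOn with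
        | h Z => exact boxDist_triangle X Y Z

end Pool.Agent.L0h96.Box
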