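import Pool.Agent.L0h96.Kuratowski

/-!
Near to the one-point mm-space there are sequences without cluster points in the box distance.
-/

set_option autoImplicit false
set_option linter.deprecated false

open MeasureTheory ProbabilityTheory Set Filter Topology TopologicalSpace

namespace Pool.Agent.L0h96.Box

/-- the one-point mm-space -/
noncomputable def pt : MMSpace where
  carrier := Unit
  μ := Measure.dirac ()

/-- mass `1 - ε` at the point `0` and mass `ε / (n + 1)` at each of the points `1, ..., n + 1` -/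
noncomputable def mun (ε : ℝ) (n : ℕ) : Measure ℕ :=
  ENNReal.ofReal (1 - ε) • Measure.dirac 0 +
    ENNReal.ofReal (ε / (n + 1)) • ∑ i ∈ Finset.range (n + 1), Measure.dirac (i + 1)

lemma mun_apply (ε : ℝ) (n : ℕ) (C : Finset ℕ) : mun ε n (C : Set ℕ) =
    ENNReal.ofReal (1 - ε) * (if 0 ∈ C then 1 else 0) +
      ENNReal.ofReal (ε / (n + 1)) * (((Finset.range (n + 1)).filter fun i => i + 1 ∈ C).card : ENNReal) := by
  classical
  have hC : MeasurableSet (C : Set ℕ) := C.measurableSet
  unfold mun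
  rw [Measure.add_apply, Measure.smul_apply, Measure.smul_apply, Measure.finset_sum_apply,
    Measure.dirac_apply' _ hC]
  simp only [smul_eq_mul]
  congr 1
  · congr 1
    by_cases h : 0 ∈ C
    · simp [h]
    · simp [h]
  · congr 1
    rw [Finset.card_filter]
    push_cast
    apply Finset.sum_congr rfl
    intro i _
    rw [Measure.dirac_apply' _ hC]
    by_cases h : i + 1 ∈ C
    · simp [h]
    · simp [h]

lemma card_filter_le (n : ℕ) (C : Finset ℕ) :
    ((Finset.range (n + 1)).filter fun i => i + 1 ∈ C).card ≤ C.card := by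
  apply Finset.card_le_card_of_injOn (fun i => i + 1)
  · intro i hi
    simp only [Finset.coe_filter, Set.mem_setOf_eq] at hi
    exact hi.2
  · intro i _ j _ h
    simpa using h

lemma mun_le {ε : ℝ} (h0 : 0 ≤ ε) (h1 : ε ≤ 1) (n : ℕ) (C : Finset ℕ) :
    (mun ε n (C : Set ℕ)).toReal ≤ 1 - ε + ε / (n + 1) * C.card := by
  have hb : mun ε n (C : Set ℕ) ≤ ENNReal.ofReal (1 - ε + ε / (n + 1) * C.card) := by
    rw [mun_apply, ENNReal.ofReal_add (by linarith) (by positivity),
      ENNReal.ofReal_mul (by positivity), ENNReal.ofReal_natCast]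
    apply add_le_add
    · split_ifs
      · simp
      · simp
    · apply mul_le_mul_right
      exact_mod_cast card_filter_le n C
  calc _ ≤ (ENNReal.ofReal (1 - ε + ε / (n + 1) * C.card)).toReal :=
        ENNReal.toReal_mono ENNReal.ofReal_ne_top hb
    _ = _ := ENNReal.toReal_ofReal (by
        have : 0 ≤ ε / (n + 1) * C.card := by positivity
        linarith)

lemma mun_univ {ε : ℝ} (h0 : 0 ≤ ε) (h1 : ε ≤ 1) (n : ℕ) : mun ε n univ = 1 := by
  unfold mun
  rw [Measure.add_apply, Measure.smul_apply, Measure.smul_apply, Measure.finset_sum_apply]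
  simp only [measure_univ, smul_eq_mul, mul_one, Finset.sum_const, Finset.card_range, nsmul_eq_mul]
  have h2 : ((n + 1 : ℕ) : ENNReal) = ENNReal.ofReal ((n : ℝ) + 1) := by
    rw [← ENNReal.ofReal_natCast]; push_cast; rfl
  rw [h2, ← ENNReal.ofReal_mul (by positivity), div_mul_cancel₀ _ (by positivity),
    ← ENNReal.ofReal_add (by linarith) h0]
  simp

/-- the mm-spaces of the example -/
noncomputable def Xn (ε : ℝ) (h0 : 0 ≤ ε) (h1 : ε ≤ 1) (n : ℕ) : MMSpace where
  carrier := ℕ
  μ := mun ε n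
  prob := ⟨mun_univ h0 h1 n⟩

lemma Xn_near (ε : ℝ) (h0 : 0 ≤ ε) (h1 : ε ≤ 1) (n : ℕ) : boxDist (Xn ε h0 h1 n) pt ≤ ε := by
  apply csInf_le (bddBelow _ _)
  obtain ⟨φ, hφ⟩ := exists_param (Xn ε h0 h1 n)
  obtain ⟨ψ, hψ⟩ := exists_param pt
  have hs : MeasurableSet ({0} : Set ℕ) := measurableSet_singleton 0
  refine ⟨h0, φ, ψ, hφ, hψ, φ ⁻¹' {(0 : ℕ)}, hφ.1 hs, ?_, ?_⟩
  · have e : volume (φ ⁻¹' {(0 : ℕ)}) = mun ε n {0} := by
      have := Measure.map_apply (μ := (volume : Measure J)) hφ.1 hs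
      rw [hφ.2] at this
      exact this.symm
    rw [e]
    have e2 : ENNReal.ofReal (1 - ε) ≤ mun ε n {0} := by
      have := mun_apply ε n {0}
      rw [Finset.coe_singleton] at this
      rw [this]
      simp
    calc 1 - ε = (ENNReal.ofReal (1 - ε)).toReal := (ENNReal.toReal_ofReal (by linarith)).symm
      _ ≤ _ := by
        apply ENNReal.toReal_mono _ e2
        have : mun ε n {0} ≤ mun ε n univ := measure_mono (subset_univ _)
        rw [mun_univ h0 h1] at this
        exact (this.trans_lt ENNReal.one_lt_top).ne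
  · intro s hs t ht
    have e1 : φ s = (0 : ℕ) := hs
    have e2 : φ t = (0 : ℕ) := ht
    have e3 : dist (φ s) (φ t) = 0 := by rw [e1, e2]; exact dist_self _
    have e4 : dist (ψ s) (ψ t) = 0 := by
      have : ψ s = ψ t := rfl
      rw [this]; exact dist_self _
    rw [e3, e4]; simpa using h0

lemma nat_eq_of_dist_lt {a b : ℕ} (h : dist a b < 1) : a = b := by
  rw [Nat.dist_eq] at h
  rw [abs_lt] at h
  have h1 : (a : ℝ) < b + 1 := by linarith
  have h2 : (b : ℝ) < a + 1 := by linarith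
  have h3 : a < b + 1 := by exact_mod_cast h1
  have h4 : b < a + 1 := by exact_mod_cast h2
  omega

lemma Xn_far (ε : ℝ) (h0 : 0 < ε) (h1 : ε ≤ 1) (Z : MMSpace) :
    ∀ᶠ n in atTop, ε / 4 ≤ boxDist (Xn ε h0.le h1 n) Z := by
  classical
  -- finitely many small balls
  set B : ℕ → Set Z.carrier := fun i => Metric.ball (denseSeq Z.carrier i) (1 / 8) with hB
  have hcov : (⋃ i, B i) = univ := by
    rw [eq_univ_iff_forall]
    intro z
    obtain ⟨y, ⟨i, rfl⟩, hy⟩ := Metric.mem_closure_iff.1
      ((denseRange_denseSeq Z.carrier).closure_range ▸ mem_univ z : z ∈ closure (range (denseSeq Z.carrier)))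
      (1 / 8) (by norm_num)
    exact mem_iUnion.2 ⟨i, hy⟩
  have hlim := tendsto_measure_iUnion_accumulate (μ := Z.μ) (f := B)
  rw [hcov, measure_univ] at hlim
  have hlt : ENNReal.ofReal (1 - ε / 4) < 1 := by
    rw [← ENNReal.ofReal_one]
    exact (ENNReal.ofReal_lt_ofReal_iff zero_lt_one).2 (by linarith)
  obtain ⟨K, hK⟩ := (hlim.eventually (lt_mem_nhds hlt)).exists
  filter_upwards [eventually_ge_atTop (2 * K + 2)] with n hn
  by_contra hcon
  push Not at hcon
  obtain ⟨ε', hε', hlt'⟩ := exists_lt_of_csInf_lt ⟨1, one_mem _ _⟩ hcon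
  obtain ⟨h0', φ, ψ, hφ, hψ, I₀, hI, hI1, hI2⟩ := hε'
  have hBm : ∀ i, MeasurableSet (B i) := fun i => Metric.isOpen_ball.measurableSet
  -- the values of `φ` on the pieces
  have hval : ∀ i, ∃ c : ℕ, ∀ s ∈ I₀, ψ s ∈ B i → φ s = c := by
    intro i
    by_cases h : ∃ s ∈ I₀, ψ s ∈ B i
    · obtain ⟨s, hs, hs2⟩ := h
      refine ⟨φ s, fun t ht ht2 => ?_⟩
      apply nat_eq_of_dist_lt
      have h3 := hI2 t ht s hs
      have h4 : dist (ψ t) (ψ s) < 1 / 4 := by
        rw [hB, Metric.mem_ball] at hs2 ht2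
        have := dist_triangle_right (ψ t) (ψ s) (denseSeq Z.carrier i)
        linarith
      have h5 := (abs_le.1 h3).2
      have h6 : dist (φ t) (φ s) < 1 := by linarith
      exact h6
    · push Not at h
      exact ⟨0, fun s hs hs2 => absurd hs2 (h s hs)⟩
  choose c hc using hval
  set C : Finset ℕ := (Finset.range (K + 1)).image c with hCdef
  have hCc : C.card ≤ K + 1 := Finset.card_image_le.trans (by simp)
  set U : Set Z.carrier := accumulate B K with hU
  have hUm : MeasurableSet U := by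
    rw [hU, Set.accumulate_def]
    exact MeasurableSet.iUnion fun i => MeasurableSet.iUnion fun _ => hBm i
  have hsub : I₀ ∩ ψ ⁻¹' U ⊆ φ ⁻¹' (C : Set ℕ) := by
    rintro s ⟨hs, hsU⟩
    rw [mem_preimage, hU, Set.mem_accumulate] at hsU
    obtain ⟨i, hi, hsi⟩ := hsU
    have e := hc i s hs hsi
    have hmem : c i ∈ (C : Set ℕ) := by
      simp only [hCdef, Finset.coe_image, Finset.coe_range]
      exact ⟨i, by simpa using Nat.lt_succ_of_le hi, rfl⟩
    show (φ s : ℕ) ∈ (C : Set ℕ)
    have e' : (φ s : ℕ) = c i := e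
    exact e'.symm ▸ hmem
  have hCm : MeasurableSet (C : Set ℕ) := C.measurableSet
  have v1 : (volume (φ ⁻¹' (C : Set ℕ))).toReal ≤ 1 - ε + ε / (n + 1) * C.card := by
    have e : volume (φ ⁻¹' (C : Set ℕ)) = mun ε n C := by
      have := Measure.map_apply (μ := (volume : Measure J)) hφ.1 hCm
      rw [hφ.2] at this
      exact this.symm
    rw [e]
    exact mun_le h0.le h1 n C
  have v2 : 1 - ε / 4 ≤ (volume (ψ ⁻¹' U)).toReal := by
    have e : volume (ψ ⁻¹' U) = Z.μ U := by
      have := Measure.map_apply (μ := (volume : Measure J)) hψ.1 hUm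
      rw [hψ.2] at this
      exact this.symm
    rw [e]
    calc 1 - ε / 4 = (ENNReal.ofReal (1 - ε / 4)).toReal :=
          (ENNReal.toReal_ofReal (by linarith)).symm
      _ ≤ _ := ENNReal.toReal_mono (measure_ne_top _ _) hK.le
  have v3 : (volume (I₀ ∩ ψ ⁻¹' U)).toReal ≤ (volume (φ ⁻¹' (C : Set ℕ))).toReal :=
    ENNReal.toReal_mono (measure_ne_top _ _) (measure_mono hsub)
  have v4 : (volume (I₀ ∪ ψ ⁻¹' U)).toReal ≤ 1 := by
    have : volume (I₀ ∪ ψ ⁻¹' U) ≤ 1 := prob_le_one
    calc (volume (I₀ ∪ ψ ⁻¹' U)).toReal ≤ (1 : ENNReal).toReal :=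
          ENNReal.toReal_mono ENNReal.one_ne_top this
      _ = 1 := by simp
  have v5 := measureReal_union_add_inter (μ := (volume : Measure J)) (s := I₀) (hψ.1 hUm)
    (measure_ne_top _ _) (measure_ne_top _ _)
  simp only [Measure.real] at v5
  have hn' : (2 * K + 2 : ℝ) ≤ n := by exact_mod_cast hn
  have hCc' : (C.card : ℝ) ≤ K + 1 := by exact_mod_cast hCc
  have v6 : ε / (n + 1) * C.card ≤ ε / 2 := by
    rw [div_mul_eq_mul_div, div_le_iff₀ (by positivity)]
    nlinarith
  have v7 : ε / (n + 1) * C.card < ε / 2 := by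
    rw [div_mul_eq_mul_div, div_lt_iff₀ (by positivity)]
    nlinarith
  linarith

/-- the class of an mm-space -/
def cls (X : MMSpace) : MM := Quotient.mk _ X

lemma dist_cls (X Y : MMSpace) : dist (cls X) (cls Y) = boxDist X Y := rfl

/-- `∅` and the one-point set `{pt}` (its closure) cannot be separated -/
theorem box_not_separated {t : TopologicalSpace (Closeds MM)} (ht : Compatible t)
    (O P : Set (Closeds MM)) (hO : IsOpen[t] O) (hP : IsOpen[t] P) (h0 : (⊥ : Closeds MM) ∈ O)
    (h1 : Closeds.closure {cls pt} ∈ P) : (O ∩ P).Nonempty := by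
  refine not_separated (cls pt) (fun ε hε => ?_) ht O P hO hP h0 h1
  have a0 : 0 < min ε 1 := lt_min hε zero_lt_one
  have a1 : min ε 1 ≤ 1 := min_le_right _ _
  refine ⟨fun n => cls (Xn (min ε 1) a0.le a1 n), fun n => ?_, fun z => ?_⟩
  · rw [dist_cls]
    exact (Xn_near _ a0.le a1 n).trans (min_le_left _ _)
  · induction z using Quotient.inductionOn with
    | h Z => exact ⟨min ε 1 / 4, by positivity, Xn_far _ a0 a1 Z⟩

end Pool.Agent.L0h96.Box
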