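import Pool.Agent.L0h96.BoxDist

/-!
The topologization of Kuratowski-Painlevé convergence of closed sets.
-/

set_option autoImplicit false
set_option linter.deprecated false

open MeasureTheory ProbabilityTheory Set Filter Topology TopologicalSpace

namespace Pool.Agent.L0h96.Box

universe u

section hyperspace

variable {Y : Type u} [TopologicalSpace Y]

/-- `Li A_i`: the points each neighbourhood of which meets `A i` for all sufficiently large `i` -/
def Li {ι : Type u} [Preorder ι] (A : ι → Closeds Y) : Set Y :=
  {y | ∀ U ∈ 𝓝 y, ∃ i, ∀ j, i ≤ j → ((A j : Set Y) ∩ U).Nonempty}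

/-- `Ls A_i`: the points each neighbourhood of which meets `A i` for cofinally many `i` -/
def Ls {ι : Type u} [Preorder ι] (A : ι → Closeds Y) : Set Y :=
  {y | ∀ U ∈ 𝓝 y, ∀ i, ∃ j, i ≤ j ∧ ((A j : Set Y) ∩ U).Nonempty}

/-- Kuratowski-Painlevé convergence of a net of closed sets -/
def KPConverges {ι : Type u} [Preorder ι] (A : ι → Closeds Y) (B : Closeds Y) : Prop :=
  Ls A ⊆ B ∧ (B : Set Y) ⊆ Li A

/-- every Kuratowski-Painlevé convergent net converges in the topology `t` to its limit -/
def Compatible (t : TopologicalSpace (Closeds Y)) : Prop :=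
  ∀ (ι : Type u) [Preorder ι] [IsDirectedOrder ι] [Nonempty ι] (A : ι → Closeds Y) (B : Closeds Y),
    KPConverges A B → Tendsto A atTop (@nhds (Closeds Y) t B)

/-- the topologization of Kuratowski-Painlevé convergence: the finest topology in which every
Kuratowski-Painlevé convergent net converges to its limit (in Mathlib's order, in which finer
topologies are smaller, the infimum of all such topologies) -/
@[instance_reducible]
def tauK (Y : Type u) [TopologicalSpace Y] : TopologicalSpace (Closeds Y) :=
  sInf {t | Compatible t}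

lemma compatible_tauK : Compatible (tauK Y) := by
  intro ι _ _ _ A B h
  unfold tauK
  rw [nhds_sInf]
  simp only [tendsto_iInf]
  intro t ht
  exact ht ι A B h

/-- `tauK` is the finest compatible topology -/
lemma isLeast_tauK : IsLeast {t : TopologicalSpace (Closeds Y) | Compatible t} (tauK Y) :=
  ⟨compatible_tauK, fun _ ht => sInf_le ht⟩

/-- the version for sequences, in terms of filters -/
lemma Compatible.seq {t : TopologicalSpace (Closeds Y)} (ht : Compatible t) (A : ℕ → Closeds Y)
    (B : Closeds Y) (h1 : ∀ y, y ∉ (B : Set Y) → ∃ U ∈ 𝓝 y, ∀ᶠ n in atTop, ¬ ((A n : Set Y) ∩ U).Nonempty)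
    (h2 : ∀ y ∈ (B : Set Y), ∀ U ∈ 𝓝 y, ∀ᶠ n in atTop, ((A n : Set Y) ∩ U).Nonempty) :
    Tendsto A atTop (@nhds (Closeds Y) t B) := by
  have : IsDirectedOrder (ULift.{u} ℕ) := ⟨fun a b => ⟨⟨max a.down b.down⟩,
    le_max_left a.down b.down, le_max_right a.down b.down⟩⟩
  have key := ht (ULift.{u} ℕ) (fun n => A n.down) B ?_
  · have hup : Tendsto (fun n : ℕ => (ULift.up n : ULift.{u} ℕ)) atTop atTop := by
      rw [tendsto_atTop]
      intro b
      filter_upwards [eventually_ge_atTop b.down] with a ha
      exact ha
    exact key.comp hup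
  · constructor
    · intro y hy
      by_contra hyB
      obtain ⟨U, hU, hev⟩ := h1 y hyB
      obtain ⟨N, hN⟩ := eventually_atTop.1 hev
      obtain ⟨j, hj, hj2⟩ := hy U hU ⟨N⟩
      exact hN j.down hj hj2
    · intro y hy U hU
      obtain ⟨N, hN⟩ := eventually_atTop.1 (h2 y hy U hU)
      exact ⟨⟨N⟩, fun j hj => hN j.down hj⟩

end hyperspace

/-- If arbitrarily near to `y` there are sequences without cluster points, then in no topology in
which Kuratowski-Painlevé convergent nets converge can `∅` and `closure {y}` be separated. -/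
theorem not_separated {Y : Type u} [PseudoMetricSpace Y] (y : Y)
    (hy : ∀ ε : ℝ, 0 < ε → ∃ x : ℕ → Y, (∀ n, dist (x n) y ≤ ε) ∧
      ∀ z, ∃ δ : ℝ, 0 < δ ∧ ∀ᶠ n in atTop, δ ≤ dist (x n) z)
    {t : TopologicalSpace (Closeds Y)} (ht : Compatible t) (O P : Set (Closeds Y))
    (hO : IsOpen[t] O) (hP : IsOpen[t] P) (h0 : (⊥ : Closeds Y) ∈ O)
    (h1 : Closeds.closure {y} ∈ P) : (O ∩ P).Nonempty := by
  have hk : ∀ k : ℕ, ∃ x : Y, dist x y ≤ 1 / ((k : ℝ) + 1) ∧ Closeds.closure {x} ∈ O := by
    intro k
    obtain ⟨x, hx1, hx2⟩ := hy (1 / ((k : ℝ) + 1)) (by positivity)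
    have hlim : Tendsto (fun n => Closeds.closure {x n}) atTop (@nhds (Closeds Y) t ⊥) := by
      apply ht.seq
      · intro z _
        obtain ⟨δ, hδ, hev⟩ := hx2 z
        refine ⟨Metric.ball z δ, Metric.ball_mem_nhds z hδ, ?_⟩
        filter_upwards [hev] with n hn
        rintro ⟨w, hw1, hw2⟩
        have hw1' : w ∈ closure {x n} := hw1
        have e : dist w (x n) ≤ 0 := by
          apply le_of_forall_pos_le_add
          intro ε hε
          obtain ⟨b, hb, hb2⟩ := Metric.mem_closure_iff.1 hw1' ε hε
          rw [mem_singleton_iff] at hb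
          rw [hb] at hb2
          linarith
        have := dist_triangle (x n) w z
        rw [Metric.mem_ball] at hw2
        rw [dist_comm w (x n)] at e
        linarith
      · intro z hz
        exact absurd hz (by simp)
    have hev : ∀ᶠ n in atTop, Closeds.closure {x n} ∈ O :=
      hlim (by letI := t; exact IsOpen.mem_nhds hO h0)
    obtain ⟨n, hn⟩ := hev.exists
    exact ⟨x n, hx1 n, hn⟩
  choose x hx1 hx2 using hk
  have hlim0 : Tendsto (fun k : ℕ => 1 / ((k : ℝ) + 1)) atTop (𝓝 0) :=
    tendsto_one_div_add_atTop_nhds_zero_nat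
  have hlim : Tendsto (fun k => Closeds.closure {x k}) atTop
      (@nhds (Closeds Y) t (Closeds.closure {y})) := by
    apply ht.seq
    · intro z hz
      have hz' : z ∉ closure {y} := hz
      have hpos : 0 < dist z y := by
        rcases (dist_nonneg (x := z) (y := y)).eq_or_lt with h | h
        · exfalso
          apply hz'
          rw [Metric.mem_closure_iff]
          intro ε hε
          exact ⟨y, rfl, by rw [← h]; exact hε⟩
        · exact h
      refine ⟨Metric.ball z (dist z y / 2), Metric.ball_mem_nhds z (by linarith), ?_⟩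
      filter_upwards [hlim0.eventually (gt_mem_nhds (show (0 : ℝ) < dist z y / 2 by linarith))]
        with k hk
      rintro ⟨w, hw1, hw2⟩
      have hw1' : w ∈ closure {x k} := hw1
      have e : dist w (x k) ≤ 0 := by
        apply le_of_forall_pos_le_add
        intro ε hε
        obtain ⟨b, hb, hb2⟩ := Metric.mem_closure_iff.1 hw1' ε hε
        rw [mem_singleton_iff] at hb
        rw [hb] at hb2
        linarith
      rw [Metric.mem_ball] at hw2
      have a1 := dist_triangle z w y
      have a2 := dist_triangle w (x k) y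
      have a3 := hx1 k
      rw [dist_comm w z] at hw2
      linarith
    · intro z hz U hU
      obtain ⟨ε, hε, hεU⟩ := Metric.mem_nhds_iff.1 hU
      have hz' : z ∈ closure {y} := hz
      have e : dist z y ≤ 0 := by
        apply le_of_forall_pos_le_add
        intro ε hε
        obtain ⟨b, hb, hb2⟩ := Metric.mem_closure_iff.1 hz' ε hε
        rw [mem_singleton_iff] at hb
        rw [hb] at hb2
        linarith
      filter_upwards [hlim0.eventually (gt_mem_nhds hε)] with k hk
      refine ⟨x k, ?_, hεU ?_⟩
      · show x k ∈ closure {x k}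
        exact subset_closure rfl
      · rw [Metric.mem_ball]
        have a1 := dist_triangle (x k) y z
        rw [dist_comm y z] at a1
        have a3 := hx1 k
        linarith
  have hev : ∀ᶠ k in atTop, Closeds.closure {x k} ∈ P :=
    hlim (by letI := t; exact IsOpen.mem_nhds hP h1)
  obtain ⟨k, hk⟩ := hev.exists
  exact ⟨_, hx2 k, hk⟩

end Pool.Agent.L0h96.Box
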