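import Mathlib

/-!
A planar continuum which is uniformly pathwise connected but not uniformly arcwise connected.

In the coordinates `(x, y)`, `u = x / y`, it consists of the segment `y = 0`, `0 ≤ x ≤ 1`, of the curve
`x = g u`, `u ≥ 1`, where `g` oscillates between `1` (odd `u`) and `1 / 2` (even `u`), and of the
segments (spokes) from the origin to the points of the curve with `u` an even number. An arc from
the origin to `(1, 1)` leaves the origin along a spoke and then has to follow the curve back to `u = 1`.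
-/

set_option autoImplicit false
set_option linter.deprecated false
set_option linter.unnecessarySeqFocus false

namespace Pool.Agent.L0h96.UPC

open Real Set unitInterval

/-- the oscillating function: `1` at odd integers, `1 / 2` at even integers -/
noncomputable def g (u : ℝ) : ℝ := (3 - cos (π * u)) / 4

lemma g_le (u : ℝ) : g u ≤ 1 := by
  have := neg_one_le_cos (π * u); unfold g; linarith

lemma le_g (u : ℝ) : 1 / 2 ≤ g u := by
  have := cos_le_one (π * u); unfold g; linarith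

lemma continuous_g : Continuous g := by
  unfold g; fun_prop

lemma g_even (m : ℕ) : g (2 * (m : ℝ)) = 1 / 2 := by
  have h : cos (π * (2 * (m : ℝ))) = 1 := by
    have := Real.cos_nat_mul_two_pi m
    rw [← this]; congr 1; ring
  unfold g; rw [h]; norm_num

lemma g_odd (m : ℕ) : g (2 * (m : ℝ) + 1) = 1 := by
  have h : cos (π * (2 * (m : ℝ) + 1)) = -1 := by
    have := Real.cos_nat_mul_two_pi_add_pi m
    rw [← this]; congr 1; ring
  unfold g; rw [h]; norm_num

lemma sin_odd (m : ℕ) : sin (π * (2 * (m : ℝ) + 1) / 2) ≠ 0 := by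
  have h : sin (π * (2 * (m : ℝ) + 1) / 2) = cos (m * π) := by
    rw [← Real.sin_add_pi_div_two]; congr 1; ring
  rw [h, Real.cos_nat_mul_pi]
  exact pow_ne_zero _ (by norm_num)

lemma sin_even (m : ℕ) : sin (π * (2 * (m : ℝ)) / 2) = 0 := by
  have : π * (2 * (m : ℝ)) / 2 = m * π := by ring
  rw [this, Real.sin_nat_mul_pi]

lemma g_lip (u w : ℝ) : |g u - g w| ≤ |u - w| := by
  have h1 : |cos (π * u) - cos (π * w)| ≤ |π * u - π * w| := Real.abs_cos_sub_cos_le _ _
  have h2 : |π * u - π * w| = π * |u - w| := by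
    rw [← mul_sub, abs_mul, abs_of_pos pi_pos]
  have h3 : g u - g w = -(cos (π * u) - cos (π * w)) / 4 := by unfold g; ring
  rw [h3, abs_div, abs_neg]
  have h4 : |(4 : ℝ)| = 4 := by norm_num
  rw [h4, div_le_iff₀ (by norm_num)]
  have h5 : π ≤ 4 := pi_le_four
  nlinarith [abs_nonneg (u - w)]

/-- the continuum -/
def S : Set (ℝ × ℝ) :=
  {p | 0 ≤ p.2 ∧ p.2 ≤ p.1 ∧ p.1 ≤ 1 ∧
    (p.2 * (p.1 - g (p.1 / p.2)) = 0 ∨ (p.1 ≤ 1 / 2 ∧ p.2 * sin (π * (p.1 / p.2) / 2) = 0))}

lemma continuous_mul_comp_div {h : ℝ → ℝ} (hh : Continuous h) {C : ℝ} (hC : ∀ x, |h x| ≤ C) :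
    Continuous fun p : ℝ × ℝ => p.2 * h (p.1 / p.2) := by
  rw [continuous_iff_continuousAt]
  rintro ⟨x, y⟩
  by_cases hy : y = 0
  · subst hy
    unfold ContinuousAt
    simp only [zero_mul]
    apply squeeze_zero_norm (a := fun p : ℝ × ℝ => |p.2| * C)
    · rintro ⟨a, b⟩
      rw [norm_mul]
      exact mul_le_mul_of_nonneg_left (hC _) (abs_nonneg _)
    · have : Continuous fun p : ℝ × ℝ => |p.2| * C := by fun_prop
      have h2 := this.tendsto (x, 0)
      simpa using h2
  · have h1 : ContinuousAt (fun p : ℝ × ℝ => p.1 / p.2) (x, y) :=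
      continuousAt_fst.div continuousAt_snd hy
    exact continuousAt_snd.mul (hh.continuousAt.comp h1)

lemma isClosed_S : IsClosed S := by
  have e : S = ({p : ℝ × ℝ | 0 ≤ p.2} ∩ {p | p.2 ≤ p.1} ∩ {p | p.1 ≤ 1}) ∩
      ({p | p.2 * p.1 - p.2 * g (p.1 / p.2) = 0} ∪
        ({p | p.1 ≤ 1 / 2} ∩ {p | p.2 * sin (π * (p.1 / p.2) / 2) = 0})) := by
    ext p
    simp only [S, mem_setOf_eq, mem_inter_iff, mem_union, mul_sub]
    tauto
  rw [e]
  have c1 : Continuous fun p : ℝ × ℝ => p.2 * g (p.1 / p.2) :=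
    continuous_mul_comp_div continuous_g (C := 1) fun x => by
      rw [abs_le]; constructor <;> linarith [g_le x, le_g x]
  have c2 : Continuous fun p : ℝ × ℝ => p.2 * sin (π * (p.1 / p.2) / 2) :=
    continuous_mul_comp_div (h := fun x => sin (π * x / 2)) (by fun_prop) (C := 1)
      fun x => Real.abs_sin_le_one _
  refine IsClosed.inter ?_ (IsClosed.union ?_ (IsClosed.inter ?_ ?_))
  · exact ((isClosed_le continuous_const continuous_snd).inter
      (isClosed_le continuous_snd continuous_fst)).inter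
      (isClosed_le continuous_fst continuous_const)
  · exact isClosed_eq ((continuous_snd.mul continuous_fst).sub c1) continuous_const
  · exact isClosed_le continuous_fst continuous_const
  · exact isClosed_eq c2 continuous_const

lemma isCompact_S : IsCompact S := by
  apply (isCompact_Icc (a := (0 : ℝ)) (b := 1) |>.prod (isCompact_Icc (a := (0 : ℝ)) (b := 1))).of_isClosed_subset
    isClosed_S
  rintro ⟨x, y⟩ ⟨h1, h2, h3, -⟩
  simp only at h1 h2 h3
  exact ⟨⟨by linarith, by linarith⟩, ⟨by linarith, by linarith⟩⟩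

instance : CompactSpace S := isCompact_iff_compactSpace.1 isCompact_S

/-- the hub -/
def v : S := ⟨(0, 0), by simp [S]⟩

/-- points of the curve -/
noncomputable def R (w : ℝ) (hw : 1 ≤ w) : S := ⟨(g w, g w / w), by
  have h1 := g_le w
  have h2 := le_g w
  have h3 : 0 < w := by linarith
  refine ⟨by positivity, ?_, h1, Or.inl ?_⟩
  · show g w / w ≤ g w
    rw [div_le_iff₀ h3]; nlinarith
  · show g w / w * (g w - g (g w / (g w / w))) = 0
    have h4 : g w / (g w / w) = w := by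
      have : g w ≠ 0 := by linarith
      field_simp
    rw [h4, sub_self, mul_zero]⟩

lemma dist_R (w w' : ℝ) (hw : 1 ≤ w) (hw' : 1 ≤ w') : dist (R w hw) (R w' hw') ≤ 2 * |w - w'| := by
  rw [Subtype.dist_eq, Prod.dist_eq]
  have h1 := g_lip w w'
  have hh := abs_nonneg (w - w')
  apply max_le
  · show dist (g w) (g w') ≤ _
    rw [Real.dist_eq]; linarith
  · show dist (g w / w) (g w' / w') ≤ _
    rw [Real.dist_eq]
    have e : g w / w - g w' / w' = (g w - g w') / w + g w' * (w' - w) / (w * w') := by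
      field_simp; ring
    rw [e]
    have h2 : |(g w - g w') / w| ≤ |w - w'| := by
      rw [abs_div, abs_of_pos (by linarith : (0 : ℝ) < w), div_le_iff₀ (by linarith)]
      nlinarith
    have h3 : |g w' * (w' - w) / (w * w')| ≤ |w - w'| := by
      rw [abs_div, abs_mul, abs_of_pos (show 0 < w * w' by positivity),
        div_le_iff₀ (by positivity), abs_sub_comm w' w, abs_of_pos (by linarith [le_g w'] : 0 < g w')]
      have h5 : 1 ≤ w * w' := by nlinarith
      have h6 := g_le w'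
      have h7 := le_g w'
      calc g w' * |w - w'| ≤ 1 * |w - w'| := by gcongr
        _ ≤ |w - w'| * (w * w') := by nlinarith
    calc _ ≤ |(g w - g w') / w| + |g w' * (w' - w) / (w * w')| := abs_add_le _ _
      _ ≤ _ := by linarith

/-- `K`-Lipschitz paths -/
def Lip {Y : Type*} [PseudoMetricSpace Y] {a b : Y} (K : ℝ) (p : Path a b) : Prop :=
  ∀ s t : I, dist (p s) (p t) ≤ K * |(s : ℝ) - t|

lemma Lip.mono {Y : Type*} [PseudoMetricSpace Y] {a b : Y} {K K' : ℝ} {p : Path a b}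
    (h : Lip K p) (hK : K ≤ K') : Lip K' p := fun s t =>
  (h s t).trans (mul_le_mul_of_nonneg_right hK (abs_nonneg _))

lemma Lip.symm {Y : Type*} [PseudoMetricSpace Y] {a b : Y} {K : ℝ} {p : Path a b}
    (h : Lip K p) : Lip K p.symm := by
  intro s t
  have := h (σ s) (σ t)
  rw [Path.symm_apply, Path.symm_apply]
  refine this.trans (le_of_eq ?_)
  congr 1
  rw [unitInterval.coe_symm_eq, unitInterval.coe_symm_eq, abs_sub_comm]
  congr 1; ring

lemma Lip.trans {Y : Type*} [PseudoMetricSpace Y] {a b c : Y} {K : ℝ} {p : Path a b}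
    {q : Path b c} (hp : Lip K p) (hq : Lip K q) : Lip (2 * K) (p.trans q) := by
  have key : ∀ s t : I, (s : ℝ) ≤ t →
      dist ((p.trans q) s) ((p.trans q) t) ≤ 2 * K * |(s : ℝ) - t| := by
    intro s t hst
    have habs : |(s : ℝ) - t| = t - s := by rw [abs_sub_comm, abs_of_nonneg (by linarith)]
    rw [habs]
    rw [Path.trans_apply, Path.trans_apply]
    by_cases ht : (t : ℝ) ≤ 1 / 2
    · have hs : (s : ℝ) ≤ 1 / 2 := hst.trans ht
      rw [dif_pos hs, dif_pos ht]
      refine (hp _ _).trans (le_of_eq ?_)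
      show K * |2 * (s : ℝ) - 2 * t| = _
      rw [abs_sub_comm, abs_of_nonneg (by linarith)]; ring
    · by_cases hs : (s : ℝ) ≤ 1 / 2
      · rw [dif_pos hs, dif_neg ht]
        have h1 := hp ⟨2 * (s : ℝ), (unitInterval.mul_pos_mem_iff zero_lt_two).2 ⟨s.2.1, hs⟩⟩ 1
        have h2 := hq 0 ⟨2 * (t : ℝ) - 1, unitInterval.two_mul_sub_one_mem_iff.2
          ⟨(not_le.1 ht).le, t.2.2⟩⟩
        rw [p.target] at h1
        rw [q.source] at h2
        have e1 : |2 * (s : ℝ) - ((1 : I) : ℝ)| = 1 - 2 * s := by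
          rw [abs_sub_comm, abs_of_nonneg] <;> simp <;> linarith
        have e2 : |((0 : I) : ℝ) - (2 * (t : ℝ) - 1)| = 2 * t - 1 := by
          rw [abs_sub_comm, abs_of_nonneg] <;> simp <;> linarith [not_le.1 ht]
        simp only at h1 h2
        rw [e1] at h1
        rw [e2] at h2
        calc _ ≤ dist _ b + dist b _ := dist_triangle _ b _
          _ ≤ K * (1 - 2 * s) + K * (2 * t - 1) := add_le_add h1 h2
          _ = 2 * K * (t - s) := by ring
      · rw [dif_neg hs, dif_neg ht]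
        refine (hq _ _).trans (le_of_eq ?_)
        show K * |2 * (s : ℝ) - 1 - (2 * t - 1)| = _
        rw [abs_sub_comm, abs_of_nonneg (by linarith)]; ring
  intro s t
  rcases le_total (s : ℝ) t with h | h
  · exact key s t h
  · rw [dist_comm, abs_sub_comm]; exact key t s h

/-- subdivision of Lipschitz paths -/
lemma Lip.subdiv {Y : Type*} [PseudoMetricSpace Y] {K : ℝ} (hK : 0 < K) {ε : ℝ} (hε : 0 < ε) :
    ∃ n : ℕ, ∀ (a b : Y) (p : Path a b), Lip K p → ∃ t : Fin (n + 1) → I,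
      t 0 = 0 ∧ t (Fin.last n) = 1 ∧ StrictMono t ∧
      ∀ i : Fin n, Metric.diam (⇑p '' Set.Icc (t i.castSucc) (t i.succ)) ≤ ε := by
  obtain ⟨N, hN⟩ := exists_nat_gt (K / ε)
  refine ⟨N + 1, fun a b p hp => ?_⟩
  have hpos : (0 : ℝ) < (N : ℝ) + 1 := by positivity
  refine ⟨fun i => ⟨(i : ℝ) / (N + 1), by positivity, ?_⟩, ?_, ?_, ?_, ?_⟩
  · rw [div_le_one hpos]
    have : (i : ℕ) ≤ N + 1 := Nat.lt_succ_iff.1 i.2
    exact_mod_cast this
  · ext; simp
  · ext; simp only [Fin.val_last, Nat.cast_add, Nat.cast_one]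
    rw [div_self hpos.ne']; rfl
  · intro i j hij
    have h1 : (i : ℕ) < j := hij
    have h2 : ((i : ℕ) : ℝ) < (j : ℕ) := by exact_mod_cast h1
    show ((i : ℕ) : ℝ) / (N + 1) < ((j : ℕ) : ℝ) / (N + 1)
    gcongr
  · intro i
    apply Metric.diam_le_of_forall_dist_le hε.le
    rintro _ ⟨s, hs, rfl⟩ _ ⟨t, ht, rfl⟩
    refine (hp s t).trans ?_
    have h1 : ((i : ℕ) : ℝ) / (N + 1) ≤ s := by
      have := Subtype.coe_le_coe.2 hs.1
      simpa using this
    have h2 : (s : ℝ) ≤ ((i : ℕ) + 1 : ℝ) / (N + 1) := by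
      have := Subtype.coe_le_coe.2 hs.2
      simpa using this
    have h3 : ((i : ℕ) : ℝ) / (N + 1) ≤ t := by
      have := Subtype.coe_le_coe.2 ht.1
      simpa using this
    have h4 : (t : ℝ) ≤ ((i : ℕ) + 1 : ℝ) / (N + 1) := by
      have := Subtype.coe_le_coe.2 ht.2
      simpa using this
    have h5 : ((i : ℕ) + 1 : ℝ) / (N + 1) = ((i : ℕ) : ℝ) / (N + 1) + 1 / (N + 1) := by ring
    have h6 : |(s : ℝ) - t| ≤ 1 / (N + 1) := by
      rw [abs_le]; constructor <;> linarith
    calc K * |(s : ℝ) - t| ≤ K * (1 / (N + 1)) := by gcongr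
      _ = K / (N + 1) := by ring
      _ ≤ ε := by
        rw [div_le_iff₀ hpos]
        rw [div_lt_iff₀ hε] at hN
        nlinarith

lemma lip_ofLine {a b : S} (f : ℝ → S) {K : ℝ}
    (hf : ∀ s t : I, dist (f s) (f t) ≤ K * |(s : ℝ) - t|)
    (h0 : f 0 = a) (h1 : f 1 = b) : ∃ p : Path a b, Lip K p ∧ ∀ t : I, p t = f t := by
  have hc : Continuous fun t : I => f t := by
    have hL : LipschitzWith (Real.toNNReal K) (fun t : I => f t) := by
      apply LipschitzWith.of_dist_le_mul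
      intro s t
      refine (hf s t).trans ?_
      have : |(s : ℝ) - t| = dist s t := by rw [Subtype.dist_eq, Real.dist_eq]
      rw [this]
      exact mul_le_mul_of_nonneg_right (Real.le_coe_toNNReal K) dist_nonneg
    exact hL.continuous
  exact ⟨⟨⟨fun t : I => f t, hc⟩, by simpa using h0, by simpa using h1⟩, hf, fun t => rfl⟩

/-- points with a straight connection to the hub -/
lemma line_mem {x y : ℝ} (h : (x, y) ∈ S) (h2 : y = 0 ∨ (x ≤ 1 / 2 ∧ sin (π * (x / y) / 2) = 0))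
    {t : ℝ} (ht0 : 0 ≤ t) (ht1 : t ≤ 1) : (t * x, t * y) ∈ S := by
  obtain ⟨a1, a2, a3, -⟩ := h
  simp only at a1 a2 a3
  refine ⟨by positivity, ?_, ?_, ?_⟩
  · show t * y ≤ t * x
    exact mul_le_mul_of_nonneg_left a2 ht0
  · show t * x ≤ 1
    nlinarith
  · rcases h2 with h2 | ⟨h2, h3⟩
    · left; show t * y * _ = 0; rw [h2]; ring
    · by_cases ht : t = 0
      · left; show t * y * _ = 0; rw [ht]; ring
      · right
        refine ⟨?_, ?_⟩
        · show t * x ≤ 1 / 2
          nlinarith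
        · show t * y * sin (π * (t * x / (t * y)) / 2) = 0
          rw [mul_div_mul_left _ _ ht, h3, mul_zero]

lemma exists_line (p : S) (h2 : (p : ℝ × ℝ).2 = 0 ∨ ((p : ℝ × ℝ).1 ≤ 1 / 2 ∧
    sin (π * ((p : ℝ × ℝ).1 / (p : ℝ × ℝ).2) / 2) = 0)) :
    ∃ q : Path v p, Lip 1 q ∧ ∀ t : I, (q t : ℝ × ℝ) =
      (t * (p : ℝ × ℝ).1, t * (p : ℝ × ℝ).2) := by
  obtain ⟨⟨x, y⟩, hp⟩ := p
  simp only at h2
  have hx := hp
  obtain ⟨a1, a2, a3, -⟩ := hx
  simp only at a1 a2 a3
  have hm : ∀ t : ℝ, (max 0 (min 1 t) * x, max 0 (min 1 t) * y) ∈ S := fun t =>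
    line_mem hp h2 (le_max_left _ _) (max_le zero_le_one (min_le_left _ _))
  have hc : ∀ t : I, max 0 (min 1 (t : ℝ)) = t := fun t => by
    rw [min_eq_right t.2.2, max_eq_right t.2.1]
  obtain ⟨q, hq, hq2⟩ := lip_ofLine (a := v) (b := ⟨(x, y), hp⟩) (K := 1) (fun t => ⟨_, hm t⟩) (by
    intro s t
    rw [Subtype.dist_eq, Prod.dist_eq]
    simp only [hc]
    have e1 : dist ((s : ℝ) * x) (t * x) = |(s : ℝ) - t| * x := by
      rw [Real.dist_eq, ← sub_mul, abs_mul, abs_of_nonneg (by linarith : 0 ≤ x)]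
    have e2 : dist ((s : ℝ) * y) (t * y) = |(s : ℝ) - t| * y := by
      rw [Real.dist_eq, ← sub_mul, abs_mul, abs_of_nonneg a1]
    rw [e1, e2]
    apply max_le <;> nlinarith [abs_nonneg ((s : ℝ) - t)]) (by
      apply Subtype.ext; simp [v]) (by apply Subtype.ext; simp)
  refine ⟨q, hq, fun t => ?_⟩
  rw [hq2]
  simp only [hc]

lemma exists_rim (w w' : ℝ) (hw : 1 ≤ w) (hw' : 1 ≤ w') :
    ∃ q : Path (R w hw) (R w' hw'), Lip (2 * |w - w'|) q ∧ ∀ t : I, ∃ h : 1 ≤ (1 - (t : ℝ)) * w + t * w',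
      q t = R ((1 - (t : ℝ)) * w + t * w') h := by
  have hm : ∀ t : ℝ, 1 ≤ (1 - max 0 (min 1 t)) * w + max 0 (min 1 t) * w' := by
    intro t
    have h1 : 0 ≤ max 0 (min 1 t) := le_max_left _ _
    have h2 : max 0 (min 1 t) ≤ 1 := max_le zero_le_one (min_le_left _ _)
    nlinarith
  have hc : ∀ t : I, max 0 (min 1 (t : ℝ)) = t := fun t => by
    rw [min_eq_right t.2.2, max_eq_right t.2.1]
  obtain ⟨q, hq, hq2⟩ := lip_ofLine (a := R w hw) (b := R w' hw') (K := 2 * |w - w'|)
    (fun t => R _ (hm t)) (by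
      intro s t
      refine (dist_R _ _ _ _).trans (le_of_eq ?_)
      simp only [hc]
      have : (1 - (s : ℝ)) * w + s * w' - ((1 - (t : ℝ)) * w + t * w') = -((w - w') * (s - t)) := by
        ring
      rw [this, abs_neg, abs_mul]; ring) (by
      congr 1; simp) (by congr 1; simp)
  refine ⟨q, hq, fun t => ?_⟩
  have := hm t
  rw [hc t] at this
  refine ⟨this, ?_⟩
  rw [hq2]
  congr 1
  rw [hc t]

lemma spoke_end (m : ℕ) (hm : 1 ≤ (2 * (m : ℝ))) :
    ((R (2 * m) hm : S) : ℝ × ℝ) = ((1 / 2 : ℝ), (1 / 2 / (2 * (m : ℝ)) : ℝ)) := by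
  unfold R; simp only [g_even]

/-- the path which starts along the spoke with `u = 2 m` and follows the curve to `u = w` -/
lemma exists_spoke_rim (m : ℕ) (hm : 1 ≤ (2 * (m : ℝ))) (w : ℝ) (hw : 1 ≤ w) :
    ∃ (q : Path v (R (2 * m) hm)) (r : Path (R (2 * m) hm) (R w hw)),
      Lip 1 q ∧ Lip (2 * |2 * (m : ℝ) - w|) r ∧
      (∀ t : I, (q t : ℝ × ℝ) = ((t : ℝ) * (1 / 2), (t : ℝ) * (1 / 2 / (2 * (m : ℝ))))) ∧
      ∀ t : I, ∃ h : 1 ≤ (1 - (t : ℝ)) * (2 * m) + t * w,
        r t = R ((1 - (t : ℝ)) * (2 * m) + t * w) h := by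
  have e := spoke_end m hm
  obtain ⟨q, hq, hq2⟩ := exists_line (R (2 * m) hm) (Or.inr (by
    rw [e]
    refine ⟨le_rfl, ?_⟩
    have : (1 / 2 : ℝ) / (1 / 2 / (2 * m)) = 2 * m := by
      have : (m : ℝ) ≠ 0 := by intro h; rw [h] at hm; norm_num at hm
      field_simp
    show sin (π * ((1 / 2 : ℝ) / (1 / 2 / (2 * m))) / 2) = 0
    rw [this, sin_even]))
  obtain ⟨r, hr, hr2⟩ := exists_rim (2 * m) w hm hw
  refine ⟨q, r, hq, hr, fun t => ?_, hr2⟩
  rw [hq2, e]

/-- each point is reached from the hub by a Lipschitz path -/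
lemma exists_short (p : S) : ∃ q : Path v p, Lip 4 q := by
  by_cases h2 : (p : ℝ × ℝ).2 = 0 ∨ ((p : ℝ × ℝ).1 ≤ 1 / 2 ∧
    sin (π * ((p : ℝ × ℝ).1 / (p : ℝ × ℝ).2) / 2) = 0)
  · obtain ⟨q, hq, -⟩ := exists_line p h2
    exact ⟨q, hq.mono (by norm_num)⟩
  push Not at h2
  obtain ⟨⟨x, y⟩, hp⟩ := p
  have hp' := hp
  obtain ⟨a1, a2, a3, a4⟩ := hp'
  simp only at h2 a1 a2 a3 a4
  obtain ⟨hy, h3⟩ := h2
  have hy' : 0 < y := lt_of_le_of_ne a1 (Ne.symm hy)
  have hx : x = g (x / y) := by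
    rcases a4 with h | ⟨h, h'⟩
    · rcases mul_eq_zero.1 h with h | h
      · exact absurd h hy
      · linarith
    · rcases mul_eq_zero.1 h' with h'' | h''
      · exact absurd h'' hy
      · exact absurd h'' (h3 h)
  have hu : 1 ≤ x / y := by rw [le_div_iff₀ hy']; linarith
  set u := x / y with hudef
  have hyu : y = g u / u := by
    rw [← hx, hudef]
    have : x ≠ 0 := by intro h; rw [h] at a2; linarith
    field_simp
  have hpR : (⟨(x, y), hp⟩ : S) = R u hu := by
    apply Subtype.ext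
    show (x, y) = (g u, g u / u)
    rw [← hx]
    rw [← hx] at hyu
    rw [← hyu]
  -- the nearest even number
  set m := ⌊(u + 1) / 2⌋₊ with hm
  have h5 : (m : ℝ) ≤ (u + 1) / 2 := Nat.floor_le (by linarith)
  have h6 : (u + 1) / 2 < (m : ℝ) + 1 := Nat.lt_floor_add_one _
  have h7 : 1 ≤ m := by
    rw [hm, Nat.one_le_floor_iff]
    linarith
  have h8 : (1 : ℝ) ≤ m := by exact_mod_cast h7
  have h9 : (1 : ℝ) ≤ 2 * m := by linarith
  obtain ⟨q, r, hq, hr, -, -⟩ := exists_spoke_rim m h9 u hu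
  have h10 : |2 * (m : ℝ) - u| ≤ 1 := by rw [abs_le]; constructor <;> linarith
  rw [hpR]
  exact ⟨q.trans r, ((hq.mono (by norm_num : (1 : ℝ) ≤ 2)).trans (hr.mono (by linarith))).mono (by norm_num)⟩

instance : ConnectedSpace S := by
  have : PathConnectedSpace S := by
    refine ⟨⟨v⟩, fun x y => ?_⟩
    obtain ⟨p, -⟩ := exists_short x
    obtain ⟨q, -⟩ := exists_short y
    exact ⟨p.symm.trans q⟩
  infer_instance

/-- `S` is uniformly pathwise connected -/
theorem uniformly_pathwise (a b : S) : ∃ P : Set (Path a b),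
    (∀ ε : ℝ, ε > 0 → ∃ n : ℕ, ∀ p ∈ P, ∃ t : Fin (n + 1) → unitInterval,
      t 0 = 0 ∧ t (Fin.last n) = 1 ∧ StrictMono t ∧
      ∀ i : Fin n, Metric.diam (⇑p '' Set.Icc (t i.castSucc) (t i.succ)) ≤ ε) ∧
    (⋃ p ∈ P, Set.range ⇑p) = Set.univ := by
  refine ⟨{p | Lip 16 p}, fun ε hε => ?_, ?_⟩
  · obtain ⟨n, hn⟩ := Lip.subdiv (Y := S) (K := 16) (by norm_num) hε
    exact ⟨n, fun p hp => hn a b p hp⟩
  · rw [eq_univ_iff_forall]
    intro x
    obtain ⟨pa, ha⟩ := exists_short a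
    obtain ⟨pb, hb⟩ := exists_short b
    obtain ⟨px, hx⟩ := exists_short x
    rw [mem_iUnion₂]
    refine ⟨(pa.symm.trans px).trans (px.symm.trans pb), ?_, ?_⟩
    · exact ((ha.symm.trans hx).trans (hx.symm.trans hb)).mono (by norm_num)
    · rw [Path.trans_range]
      left
      rw [Path.trans_range]
      right
      exact ⟨1, px.target⟩

/-! ### arcs -/

/-- the end point of the arcs -/
noncomputable abbrev b : S := R 1 le_rfl

lemma v_ne {p : S} (h : p ≠ v) : 0 < (p : ℝ × ℝ).1 := by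
  obtain ⟨⟨x, y⟩, a1, a2, a3, a4⟩ := p
  simp only at a1 a2
  show 0 < x
  by_contra hx
  apply h
  apply Subtype.ext
  show (x, y) = (0, 0)
  rw [Prod.mk.injEq]
  constructor <;> linarith

lemma odd_level {p : S} {k : ℕ} (hp : 0 < (p : ℝ × ℝ).1)
    (h : (p : ℝ × ℝ).2 / (p : ℝ × ℝ).1 = 1 / (2 * (k : ℝ) + 1)) : (p : ℝ × ℝ).1 = 1 := by
  obtain ⟨⟨x, y⟩, a1, a2, a3, a4⟩ := p
  simp only at a1 a2 a3 a4 h hp ⊢
  have hk : (0 : ℝ) < 2 * (k : ℝ) + 1 := by positivity
  have hy : y = x / (2 * (k : ℝ) + 1) := by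
    rw [div_eq_iff hp.ne'] at h
    rw [h]; ring
  have hy0 : 0 < y := by rw [hy]; positivity
  have hxy : x / y = 2 * (k : ℝ) + 1 := by
    rw [hy]; field_simp
  rw [hxy, g_odd] at a4
  rcases a4 with h' | ⟨-, h'⟩
  · rcases mul_eq_zero.1 h' with h' | h'
    · exact absurd h' hy0.ne'
    · linarith
  · rcases mul_eq_zero.1 h' with h' | h'
    · exact absurd h' hy0.ne'
    · exact absurd h' (sin_odd k)

lemma even_level {p : S} {k : ℕ} (hk : 1 ≤ k) (hp : 0 < (p : ℝ × ℝ).1)
    (h : (p : ℝ × ℝ).2 / (p : ℝ × ℝ).1 = 1 / (2 * (k : ℝ))) : (p : ℝ × ℝ).1 ≤ 1 / 2 := by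
  obtain ⟨⟨x, y⟩, a1, a2, a3, a4⟩ := p
  simp only at a1 a2 a3 a4 h hp ⊢
  have hk0 : (0 : ℝ) < k := by exact_mod_cast hk
  have hy : y = x / (2 * (k : ℝ)) := by
    rw [div_eq_iff hp.ne'] at h
    rw [h]; ring
  have hy0 : 0 < y := by rw [hy]; positivity
  have hxy : x / y = 2 * (k : ℝ) := by
    rw [hy]; field_simp
  rw [hxy, g_even] at a4
  rcases a4 with h' | ⟨h', -⟩
  · rcases mul_eq_zero.1 h' with h' | h'
    · exact absurd h' hy0.ne'
    · linarith
  · exact h'

lemma level_dist {p q : S} {k : ℕ} (hk : 1 ≤ k) (hp : 0 < (p : ℝ × ℝ).1) (hq : 0 < (q : ℝ × ℝ).1)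
    (h : (p : ℝ × ℝ).2 / (p : ℝ × ℝ).1 = 1 / (k : ℝ))
    (h' : (q : ℝ × ℝ).2 / (q : ℝ × ℝ).1 = 1 / ((k : ℝ) + 1)) : 1 / 2 ≤ dist p q := by
  have hd : |(p : ℝ × ℝ).1 - (q : ℝ × ℝ).1| ≤ dist p q := by
    rw [Subtype.dist_eq, Prod.dist_eq, ← Real.dist_eq]
    exact le_max_left _ _
  refine le_trans ?_ hd
  rcases Nat.even_or_odd' k with ⟨j, rfl | rfl⟩
  · have h1 : (p : ℝ × ℝ).1 ≤ 1 / 2 := even_level (k := j) (by omega) hp (by rw [h]; push_cast; rfl)
    have h2 : (q : ℝ × ℝ).1 = 1 := odd_level (k := j) hq (by rw [h']; push_cast; rfl)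
    rw [h2, abs_sub_comm, abs_of_nonneg] <;> linarith
  · have h1 : (p : ℝ × ℝ).1 = 1 := odd_level (k := j) hp (by rw [h]; push_cast; rfl)
    have h2 : (q : ℝ × ℝ).1 ≤ 1 / 2 := even_level (k := j + 1) (by omega) hq (by
      rw [h']; push_cast; ring)
    rw [h1, abs_of_nonneg] <;> linarith

/-- an injective path from the hub to `b` through a point of the `m`-th spoke -/
lemma exists_arc (m : ℕ) (hm : 1 ≤ m) : ∃ (q : Path v b) (c : S), Function.Injective q ∧
    c ∈ range q ∧ c ≠ v ∧ (c : ℝ × ℝ).2 / (c : ℝ × ℝ).1 = 1 / (2 * m) := by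
  have hm0 : (1 : ℝ) ≤ m := by exact_mod_cast hm
  have hm1 : (1 : ℝ) ≤ 2 * m := by linarith
  obtain ⟨q, (r : Path (R (2 * m) hm1) b), -, -, hq, hr⟩ := exists_spoke_rim m hm1 1 le_rfl
  have q_fst : ∀ t : I, ((q t : S) : ℝ × ℝ).1 = t / 2 := fun t => by rw [hq]; ring
  have q_rat : ∀ t : I, ((q t : S) : ℝ × ℝ).2 = ((q t : S) : ℝ × ℝ).1 / (2 * m) := fun t => by
    rw [hq]; simp only; ring
  have R_rat : ∀ w (hw : 1 ≤ w), ((R w hw : S) : ℝ × ℝ).2 = ((R w hw : S) : ℝ × ℝ).1 / w :=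
    fun w hw => rfl
  have R_pos : ∀ w (hw : 1 ≤ w), 0 < ((R w hw : S) : ℝ × ℝ).1 := fun w hw => by
    show 0 < g w
    linarith [le_g w]
  have qinj : Function.Injective q := by
    intro s t hst
    have := congrArg (fun z : S => (z : ℝ × ℝ).1) hst
    simp only [q_fst] at this
    apply Subtype.ext; linarith
  have Rinj : ∀ w w' (hw : 1 ≤ w) (hw' : 1 ≤ w'), R w hw = R w' hw' → w = w' := by
    intro w w' hw hw' h
    have h1 := R_rat w hw
    have h2 := R_rat w' hw'
    rw [h] at h1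
    rw [h1] at h2
    have h3 := R_pos w' hw'
    have h4 : w ≠ 0 := by linarith
    have h5 : w' ≠ 0 := by linarith
    rw [div_eq_div_iff h4 h5] at h2
    have := mul_left_cancel₀ h3.ne' h2
    exact this.symm
  have rinj : Function.Injective r := by
    intro s t hst
    obtain ⟨h1, e1⟩ := hr s
    obtain ⟨h2, e2⟩ := hr t
    rw [e1, e2] at hst
    have := Rinj _ _ h1 h2 hst
    apply Subtype.ext
    have h3 : ((s : ℝ) - t) * (1 - 2 * m) = 0 := by linarith
    rcases mul_eq_zero.1 h3 with h | h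
    · linarith
    · linarith
  -- common points
  have hcommon : ∀ s t : I, q s = r t → (s : ℝ) = 1 ∧ (t : ℝ) = 0 := by
    intro s t hst
    obtain ⟨h1, e1⟩ := hr t
    rw [e1] at hst
    have a1 := q_rat s
    have a2 := R_rat _ h1
    have a3 := R_pos _ h1
    rw [hst] at a1
    rw [a1] at a2
    have h3 : (2 * (m : ℝ)) = (1 - (t : ℝ)) * (2 * m) + t * 1 := by
      have h5 : (1 - (t : ℝ)) * (2 * m) + t * 1 ≠ 0 := by linarith
      have h6 : (2 * (m : ℝ)) ≠ 0 := by linarith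
      rw [div_eq_div_iff h6 h5] at a2
      have := mul_left_cancel₀ a3.ne' a2
      linarith
    have h4 : (t : ℝ) = 0 := by
      have : (t : ℝ) * (1 - 2 * m) = 0 := by linarith
      rcases mul_eq_zero.1 this with h | h
      · exact h
      · linarith
    refine ⟨?_, h4⟩
    have h5 := congrArg (fun z : S => (z : ℝ × ℝ).1) hst
    simp only [q_fst] at h5
    have h6 : ((R ((1 - (t : ℝ)) * (2 * m) + t * 1) h1 : S) : ℝ × ℝ).1 = 1 / 2 := by
      show g _ = _
      rw [h4]
      have : (1 - (0 : ℝ)) * (2 * m) + 0 * 1 = 2 * m := by ring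
      rw [this, g_even]
    rw [h6] at h5
    linarith
  refine ⟨q.trans r, q ⟨1 / 2, by norm_num, by norm_num⟩, ?_, ?_, ?_, ?_⟩
  · intro s t hst
    rw [Path.trans_apply, Path.trans_apply] at hst
    by_cases hs : (s : ℝ) ≤ 1 / 2 <;> by_cases ht : (t : ℝ) ≤ 1 / 2
    · rw [dif_pos hs, dif_pos ht] at hst
      have := congrArg Subtype.val (qinj hst)
      simp only at this
      apply Subtype.ext; linarith
    · rw [dif_pos hs, dif_neg ht] at hst
      have := (hcommon _ _ hst).2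
      simp only at this
      exact absurd (by linarith) ht
    · rw [dif_neg hs, dif_pos ht] at hst
      have := (hcommon _ _ hst.symm).2
      simp only at this
      exact absurd (by linarith) hs
    · rw [dif_neg hs, dif_neg ht] at hst
      have := congrArg Subtype.val (rinj hst)
      simp only at this
      apply Subtype.ext; linarith
  · rw [Path.trans_range]
    left
    exact ⟨_, rfl⟩
  · intro h
    have := congrArg (fun z : S => (z : ℝ × ℝ).1) h
    simp only [q_fst] at this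
    have h0 : ((v : S) : ℝ × ℝ).1 = 0 := rfl
    rw [h0] at this
    norm_num at this
  · rw [q_rat, q_fst]
    have : (m : ℝ) ≠ 0 := by linarith
    field_simp

/-- no uniform collection of arcs from `v` to `b` covers all arcs from `v` to `b` -/
theorem not_uniformly_arcwise : ¬ ∃ P : Set (Path v b),
    (∀ p ∈ P, Function.Injective ⇑p) ∧
    (∀ ε : ℝ, ε > 0 → ∃ n : ℕ, ∀ p ∈ P, ∃ t : Fin (n + 1) → unitInterval,
      t 0 = 0 ∧ t (Fin.last n) = 1 ∧ StrictMono t ∧
      ∀ i : Fin n, Metric.diam (⇑p '' Set.Icc (t i.castSucc) (t i.succ)) ≤ ε) ∧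
    (⋃ p ∈ P, Set.range ⇑p) =
      ⋃ (q : Path v b) (_ : Function.Injective ⇑q), Set.range ⇑q := by
  rintro ⟨P, hP, hu, hcov⟩
  obtain ⟨n, hn⟩ := hu (1 / 4) (by norm_num)
  obtain ⟨q, c, hq, hc, hcv, hclev⟩ := exists_arc (n + 1) (by omega)
  have hc2 : c ∈ ⋃ p ∈ P, Set.range ⇑p := by
    rw [hcov, mem_iUnion₂]
    exact ⟨q, hq, hc⟩
  rw [mem_iUnion₂] at hc2
  obtain ⟨p, hpP, t0, ht0⟩ := hc2
  obtain ⟨τ, τ0, τ1, τm, τd⟩ := hn p hpP
  have pinj := hP p hpP
  -- after `t0` the path avoids the hub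
  have hpos : ∀ t : I, t0 ≤ t → 0 < ((p t : S) : ℝ × ℝ).1 := by
    intro t ht
    apply v_ne
    intro h
    have h1 : p t = p 0 := by rw [h, p.source]
    have h2 := pinj h1
    rw [h2] at ht
    have h3 : t0 = 0 := le_antisymm ht t0.2.1
    rw [h3, p.source] at ht0
    exact hcv ht0.symm
  set Q : I → ℝ := fun t => ((p t : S) : ℝ × ℝ).2 / ((p t : S) : ℝ × ℝ).1 with hQ
  have hpc : Continuous fun t : I => ((p t : S) : ℝ × ℝ) := continuous_subtype_val.comp p.continuous
  have hQc : ContinuousOn Q (Set.Ici t0) := by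
    intro t ht
    exact ((continuous_snd.comp hpc).continuousAt.div (continuous_fst.comp hpc).continuousAt
      (hpos t ht).ne').continuousWithinAt
  have hQ0 : Q t0 = 1 / (2 * ((n + 1 : ℕ) : ℝ)) := by rw [hQ]; simp only [ht0]; exact hclev
  have hQ1 : Q 1 = 1 := by
    rw [hQ]; simp only [p.target]
    show g 1 / 1 / g 1 = 1
    have : g 1 ≠ 0 := by linarith [le_g 1]
    field_simp
  -- all levels are attained
  have hlev : ∀ k : Fin (n + 1), ∃ t : I, t0 ≤ t ∧ Q t = 1 / ((k : ℕ) + 1 : ℝ) := by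
    intro k
    have hk : ((k : ℕ) : ℝ) + 1 ≤ n + 1 := by
      have := k.2
      have : (k : ℕ) ≤ n := by omega
      have : ((k : ℕ) : ℝ) ≤ n := by exact_mod_cast this
      linarith
    have h1 : (1 : ℝ) / ((k : ℕ) + 1 : ℝ) ∈ Set.Icc (Q t0) (Q 1) := by
      rw [hQ0, hQ1]
      constructor
      · apply one_div_le_one_div_of_le (by positivity)
        push_cast; linarith
      · rw [div_le_one (by positivity)]
        have : (0 : ℝ) ≤ (k : ℕ) := by positivity
        linarith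
    have h2 := intermediate_value_Icc (a := t0) (b := 1) t0.2.2
      (hQc.mono (fun t ht => ht.1)) h1
    obtain ⟨t, ht, hte⟩ := h2
    exact ⟨t, ht.1, hte⟩
  choose T hT hTQ using hlev
  -- an interval of the subdivision
  have hint : ∀ t : I, ∃ i : Fin n, t ∈ Set.Icc (τ i.castSucc) (τ i.succ) := by
    intro t
    by_contra hcon
    push Not at hcon
    have : ∀ j : Fin (n + 1), τ j ≤ t := by
      intro j
      induction j using Fin.induction with
      | zero => rw [τ0]; exact t.2.1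
      | succ i ih =>
        by_contra hlt
        exact hcon i ⟨ih, (not_le.1 hlt).le⟩
    have h1 : (1 : I) ≤ t := by rw [← τ1]; exact this _
    have h2 : t = 1 := le_antisymm t.2.2 h1
    have hn0 : n ≠ 0 := by
      intro h
      subst h
      have : (0 : I) = 1 := by rw [← τ0, ← τ1]; rfl
      exact zero_ne_one this
    obtain ⟨m, rfl⟩ := Nat.exists_eq_succ_of_ne_zero hn0
    apply hcon (Fin.last m)
    refine ⟨this _, ?_⟩
    rw [h2, Fin.succ_last]
    exact τ1.ge
  choose i hi using hint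
  have hinj : Function.Injective fun k : Fin (n + 1) => i (T k) := by
    have key : ∀ k k' : Fin (n + 1), k < k' → i (T k) ≠ i (T k') := by
      intro k k' hkk hii
      have hlt : (k : ℕ) < k' := hkk
      have hle : ((k : ℕ) : ℝ) + 1 ≤ (k' : ℕ) := by exact_mod_cast hlt
      have hk0 : (0 : ℝ) ≤ (k : ℕ) := by positivity
      have h1 := hi (T k)
      have h2 := hi (T k')
      have hii' : i (T k) = i (T k') := hii
      rw [← hii'] at h2
      -- the level k + 1 is attained in between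
      have hsub : Set.uIcc (T k) (T k') ⊆ Set.Icc (τ (i (T k)).castSucc) (τ (i (T k)).succ) :=
        Set.OrdConnected.uIcc_subset Set.ordConnected_Icc h1 h2
      have hsub2 : Set.uIcc (T k) (T k') ⊆ Set.Ici t0 := by
        intro z hz
        exact le_trans (le_inf (hT k) (hT k')) hz.1
      have hmem : (1 : ℝ) / ((k : ℕ) + 1 + 1 : ℝ) ∈ Set.uIcc (Q (T k)) (Q (T k')) := by
        rw [hTQ, hTQ, Set.uIcc_of_ge]
        · constructor
          · apply one_div_le_one_div_of_le (by positivity); linarith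
          · apply one_div_le_one_div_of_le (by positivity); linarith
        · apply one_div_le_one_div_of_le (by positivity); linarith
      obtain ⟨t, ht, htQ⟩ := intermediate_value_uIcc (hQc.mono hsub2) hmem
      have hd : 1 / 2 ≤ dist (p (T k)) (p t) :=
        level_dist (k := (k : ℕ) + 1) (by omega) (hpos _ (hT k)) (hpos _ (hsub2 ht))
          (by have := hTQ k; rw [hQ] at this; push_cast; exact this)
          (by rw [hQ] at htQ; push_cast; exact htQ)
      have hdiam := τd (i (T k))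
      have hcomp : Bornology.IsBounded (⇑p '' Set.Icc (τ (i (T k)).castSucc) (τ (i (T k)).succ)) :=
        (isCompact_Icc.image p.continuous).isBounded
      have := Metric.dist_le_diam_of_mem hcomp (mem_image_of_mem p h1)
        (mem_image_of_mem p (hsub ht))
      linarith
    intro k k' h
    by_contra hne
    rcases lt_or_gt_of_ne hne with h' | h'
    · exact key k k' h' h
    · exact key k' k h' h.symm
  have := Fintype.card_le_of_injective _ hinj
  simp at this

end Pool.Agent.L0h96.UPC
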